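import Pool.Agent.E8helper23.SG.Stm

/-!
GOLD: many primes with `χ p ≠ -1`.
-/

set_option autoImplicit false

namespace Pool.Agent.E8helper51.SG

open Finset
open Pool.Agent.E8helper22.SZ (RealPrim cv tau)
open Pool.Agent.E8helper23.SG

lemma tot_le (p q' : ℕ) (hp : p = 1 ∨ p = 2 ∨ p = 3) :
    Nat.totient (p * q') ≤ p * Nat.totient q' := by
  rcases hp with rfl | hp
  · simp
  · have hpr : p.Prime := by
      rcases hp with rfl | rfl
      · exact Nat.prime_two
      · exact Nat.prime_three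
    by_cases h : p ∣ q'
    · rw [Nat.totient_mul_of_prime_of_dvd hpr h]
    · rw [Nat.totient_mul_of_prime_of_not_dvd hpr h]
      exact Nat.mul_le_mul_right _ (Nat.sub_le _ _)

lemma core (h2 : S_ARC) (c : ℝ) (n₀ k : ℕ) (hc : 0 < c) (hk : 2 ≤ k)
    (H : ∀ n : ℕ, n₀ ≤ n → (4 ∣ n ∨ 6 ∣ n) → c * (n : ℝ) / Real.log n ^ 2 ≤ (g n : ℝ))
    (q q' p a b : ℕ) (χ : DirichletCharacter ℂ q) (hq : 24 * n₀ + 48 ≤ q) (hqq : q = p * q')
    (hp : p = 1 ∨ p = 2 ∨ p = 3) (ha : a ≤ 4) (hb : 4 ≤ b) (hb2 : b ≤ 12)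
    (hS : ∀ i : ℕ, (4 ∣ q' * (a + b * i) ∨ 6 ∣ q' * (a + b * i)) ∧
      ∀ p₁ p₂ : ℕ, p₁ + p₂ = q' * (a + b * i) → ¬ (cv χ p₁ = -1 ∧ cv χ p₂ = -1)) :
    c / (405504 * k) * (q : ℝ) ^ k * (Nat.totient q : ℝ) / (q * Real.log q) ≤
      ((Np χ (q ^ k)).card : ℝ) := by
  have hq0 : 48 ≤ q := by omega
  have hq'0 : 0 < q' := by
    rcases Nat.eq_zero_or_pos q' with h | h
    · rw [h, mul_zero] at hqq; omega
    · exact h
  have hq'q : q' ≤ q := by rcases hp with rfl | rfl | rfl <;> omega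
  have hxq : q ^ 2 ≤ q ^ k := Nat.pow_le_pow_right (by omega) hk
  obtain ⟨x, hx⟩ : ∃ x, x = q ^ k := ⟨_, rfl⟩
  rw [← hx] at hxq ⊢
  have hqx : q' * q ≤ x := by nlinarith
  have hq'x : q' ≤ x := by nlinarith
  have hq'2 : q' * q' ≤ x := by nlinarith
  have hxbig : 48 * q ≤ x := by nlinarith
  obtain ⟨Y, hY⟩ : ∃ Y, Y = x / q' := ⟨_, rfl⟩
  have hYq : q ≤ Y := by
    rw [hY]
    exact (Nat.le_div_iff_mul_le hq'0).2 (by nlinarith)
  obtain ⟨m, hm⟩ : ∃ m, m = Y / 24 := ⟨_, rfl⟩
  have hm1 : 1 ≤ m := by omega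
  have hm2 : Y ≤ 48 * m := by omega
  have hm3 : 24 * m ≤ Y := by omega
  have hYx : q' * Y ≤ x := by rw [hY]; exact Nat.mul_div_le x q'
  have hYx2 : x < q' * (Y + 1) := by rw [hY]; exact Nat.lt_mul_div_succ x hq'0
  obtain ⟨S, hSdef⟩ : ∃ S, S = (Ico m (2 * m)).image (fun i => q' * (a + b * i)) := ⟨_, rfl⟩
  have hcard : S.card = m := by
    rw [hSdef, Finset.card_image_of_injective]
    · rw [Nat.card_Ico]; omega
    · intro i j hij
      have h1 : q' * (a + b * i) = q' * (a + b * j) := hij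
      have h2 := Nat.eq_of_mul_eq_mul_left hq'0 h1
      have h3 : b * i = b * j := by omega
      exact Nat.eq_of_mul_eq_mul_left (by omega) h3
  have hmem : ∀ n ∈ S, n ≤ x ∧ x ≤ 24 * n ∧ ∃ i, n = q' * (a + b * i) := by
    intro n hn
    rw [hSdef, Finset.mem_image] at hn
    obtain ⟨i, hi, rfl⟩ := hn
    rw [Finset.mem_Ico] at hi
    refine ⟨?_, ?_, i, rfl⟩
    · have h1 : b * i ≤ 12 * i := Nat.mul_le_mul_right _ hb2
      have h2 : a + b * i ≤ Y := by omega
      exact (Nat.mul_le_mul_left _ h2).trans hYx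
    · have h1 : 4 * i ≤ b * i := Nat.mul_le_mul_right _ hb
      have h2 : Y + 1 ≤ 24 * (a + b * i) := by omega
      calc x ≤ q' * (Y + 1) := hYx2.le
        _ ≤ q' * (24 * (a + b * i)) := Nat.mul_le_mul_left _ h2
        _ = 24 * (q' * (a + b * i)) := by ring
  -- ARC
  have harc := h2 q q' x χ S hq'0 hq'x (by
    intro n hn
    obtain ⟨h1, _, i, h3⟩ := hmem n hn
    refine ⟨h1, ⟨_, h3⟩, ?_⟩
    intro p₁ p₂ h12
    exact (hS i).2 p₁ p₂ (h12.trans h3))
  -- real quantities
  have hxR : (48 : ℝ) * q ≤ x := by exact_mod_cast hxbig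
  have hqR : (48 : ℝ) ≤ q := by exact_mod_cast hq0
  have hx1 : (1 : ℝ) < x := by linarith
  have hlx : 0 < Real.log x := Real.log_pos hx1
  have hlq : 0 < Real.log q := Real.log_pos (by linarith)
  have hq'R : (0 : ℝ) < q' := by exact_mod_cast hq'0
  -- lower bound
  have hlow : (m : ℝ) * (c * (x / 24) / Real.log x ^ 2) ≤ ∑ n ∈ S, (g n : ℝ) := by
    rw [← hcard, ← nsmul_eq_mul]
    apply Finset.card_nsmul_le_sum
    intro n hn
    obtain ⟨h1, h3, i, h4⟩ := hmem n hn
    have hn0 : n₀ ≤ n := by omega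
    have hn2 : 2 ≤ n := by omega
    refine le_trans ?_ (H n hn0 (by rw [h4]; exact (hS i).1))
    have hnR : (2 : ℝ) ≤ n := by exact_mod_cast hn2
    have hln : 0 < Real.log n := Real.log_pos (by linarith)
    have hlnx : Real.log n ≤ Real.log x := Real.log_le_log (by linarith) (by exact_mod_cast h1)
    have h24 : (x : ℝ) ≤ 24 * n := by exact_mod_cast h3
    apply div_le_div₀
    · positivity
    · nlinarith
    · positivity
    · exact pow_le_pow_left₀ hln.le hlnx 2
  -- N / log N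
  have hN1 : ((x / q' + 1 : ℕ) : ℝ) ≤ 2 * x / q' := by
    rw [← hY, le_div_iff₀ hq'R]
    have : (Y + 1) * q' ≤ 2 * x := by nlinarith
    exact_mod_cast this
  have hN2 : (x : ℝ) / q' ≤ ((x / q' + 1 : ℕ) : ℝ) := by
    rw [← hY, div_le_iff₀ hq'R]
    have : x ≤ (Y + 1) * q' := by nlinarith
    exact_mod_cast this
  have hN3 : Real.log x / 2 ≤ Real.log ((x / q' + 1 : ℕ) : ℝ) := by
    have hx0 : (0 : ℝ) < x := by linarith
    have h1 : Real.log ((x : ℝ) / q') ≤ Real.log ((x / q' + 1 : ℕ) : ℝ) :=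
      Real.log_le_log (by positivity) hN2
    rw [Real.log_div hx0.ne' hq'R.ne'] at h1
    have h3 : Real.log ((q' : ℝ) * q') ≤ Real.log x :=
      Real.log_le_log (by positivity) (by exact_mod_cast hq'2)
    rw [Real.log_mul hq'R.ne' hq'R.ne'] at h3
    linarith
  have hN4 : ((x / q' + 1 : ℕ) : ℝ) / Real.log ((x / q' + 1 : ℕ) : ℝ) ≤
      4 * x / (q' * Real.log x) := by
    have h1 : ((x / q' + 1 : ℕ) : ℝ) / Real.log ((x / q' + 1 : ℕ) : ℝ) ≤
        (2 * x / q') / (Real.log x / 2) := by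
      apply div_le_div₀
      · positivity
      · exact hN1
      · positivity
      · exact hN3
    refine h1.trans (le_of_eq ?_)
    field_simp
    ring
  have hphi' : 0 < Nat.totient q' := Nat.totient_pos.2 hq'0
  have hphiR : (0 : ℝ) < Nat.totient q' := by exact_mod_cast hphi'
  have hup : ∑ n ∈ S, (g n : ℝ) ≤ 2 * (Np χ x).card *
      (22 * ((q' : ℝ) / Nat.totient q') * (4 * x / (q' * Real.log x))) := by
    refine harc.trans ?_
    rw [mul_div_assoc (22 * ((q' : ℝ) / Nat.totient q'))]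
    gcongr
  have hmR : (x : ℝ) / (96 * q') ≤ m := by
    rw [div_le_iff₀ (by positivity)]
    have : x ≤ m * (96 * q') := by nlinarith
    exact_mod_cast this
  have hall : (x : ℝ) / (96 * q') * (c * (x / 24) / Real.log x ^ 2) ≤
      2 * (Np χ x).card * (22 * ((q' : ℝ) / Nat.totient q') * (4 * x / (q' * Real.log x))) := by
    refine le_trans ?_ (hlow.trans hup)
    apply mul_le_mul_of_nonneg_right hmR
    positivity
  have hx0 : (0 : ℝ) < x := by linarith
  have hfin : c * x * Nat.totient q' / (405504 * q' * Real.log x) ≤ (Np χ x).card := by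
    have e1 : (x : ℝ) / (96 * q') * (c * (x / 24) / Real.log x ^ 2) =
        (c * x * Nat.totient q' / (405504 * q' * Real.log x)) *
          (2 * (22 * ((q' : ℝ) / Nat.totient q') * (4 * x / (q' * Real.log x)))) := by
      field_simp
      ring
    rw [e1] at hall
    have hpos : (0 : ℝ) < 2 * (22 * ((q' : ℝ) / Nat.totient q') * (4 * x / (q' * Real.log x))) := by
      positivity
    have e2 : (2 : ℝ) * (Np χ x).card *
        (22 * ((q' : ℝ) / Nat.totient q') * (4 * x / (q' * Real.log x))) =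
        (Np χ x).card *
          (2 * (22 * ((q' : ℝ) / Nat.totient q') * (4 * x / (q' * Real.log x)))) := by ring
    rw [e2] at hall
    exact le_of_mul_le_mul_right hall hpos
  refine le_trans ?_ hfin
  have hxcast : (x : ℝ) = (q : ℝ) ^ k := by rw [hx]; push_cast; rfl
  have hlogx : Real.log x = k * Real.log q := by rw [hxcast, Real.log_pow]
  have hk0 : (0 : ℝ) < k := by
    have : 0 < k := by omega
    exact_mod_cast this
  have hp0 : 0 < p := by rcases hp with rfl | rfl | rfl <;> norm_num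
  have hpR : (0 : ℝ) < p := by exact_mod_cast hp0
  have htot : (Nat.totient q : ℝ) ≤ p * Nat.totient q' := by
    have := tot_le p q' hp
    rw [← hqq] at this
    exact_mod_cast this
  rw [hlogx, ← hxcast]
  have hqc : (q : ℝ) = p * q' := by
    have := congrArg (Nat.cast : ℕ → ℝ) hqq
    push_cast at this
    exact this
  have hq00 : (0 : ℝ) < q := by linarith
  have e3 : c * x * Nat.totient q' / (405504 * q' * (k * Real.log q)) =
      c / (405504 * k) * x * (p * Nat.totient q') / (q * Real.log q) := by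
    rw [div_eq_div_iff (by positivity) (by positivity)]
    have : c / (405504 * k) * x * (p * Nat.totient q') * (405504 * q' * (k * Real.log q)) =
        (c / (405504 * k) * (405504 * k)) * x * Nat.totient q' * ((p * q') * Real.log q) := by
      ring
    rw [this, ← hqc, div_mul_cancel₀ _ (by positivity)]
  rw [e3]
  gcongr

theorem t_GOLD (h1 : S_CLS) (h2 : S_ARC) : S_GOLD := by
  intro c n₀ k hc hk H
  have hk0 : 0 < k := by omega
  refine ⟨c / (405504 * k), by positivity, 24 * n₀ + 48, ?_⟩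
  intro q χ hq hχ hcase
  obtain ⟨hc1, hc2, hc3⟩ := h1 q χ (by omega) hχ
  by_cases hm : χ (-1) = -1
  · refine core h2 c n₀ k hc hk H q q 1 0 4 χ hq (by ring) (Or.inl rfl) (by norm_num)
      (by norm_num) (by norm_num) ?_
    intro i
    refine ⟨Or.inl ⟨q * i, by ring⟩, ?_⟩
    intro p₁ p₂ h12
    exact hc1 hm _ p₁ p₂ ⟨_, rfl⟩ h12
  · have hp1 : χ (-1) = 1 := by
      rcases hχ.quad (-1) with h | h | h
      · exfalso
        have hu : IsUnit (-1 : ZMod q) := isUnit_one.neg
        have := hu.map χ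
        rw [h] at this
        exact not_isUnit_zero this
      · exact h
      · exact absurd h hm
    rcases hcase with h | h | h
    · exact absurd h hm
    · obtain ⟨r, hr⟩ := hc3 h
      refine core h2 c n₀ k hc hk H q (2 * r) 2 3 6 χ hq (by rw [hr]; ring)
        (Or.inr (Or.inl rfl)) (by norm_num) (by norm_num) (by norm_num) ?_
      intro i
      refine ⟨Or.inr ⟨r * (1 + 2 * i), by ring⟩, ?_⟩
      intro p₁ p₂ h12
      exact hc2 hp1 2 (2 * r) (3 + 6 * i) _ p₁ p₂ (Or.inl rfl) (by rw [hr]; ring) (by omega) rfl h12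
    · obtain ⟨r, hr⟩ := h
      refine core h2 c n₀ k hc hk H q r 3 4 12 χ hq hr
        (Or.inr (Or.inr rfl)) (by norm_num) (by norm_num) (by norm_num) ?_
      intro i
      refine ⟨Or.inl ⟨r * (1 + 3 * i), by ring⟩, ?_⟩
      intro p₁ p₂ h12
      exact hc2 hp1 3 r (4 + 12 * i) _ p₁ p₂ (Or.inr rfl) hr (by omega) rfl h12

end Pool.Agent.E8helper51.SG
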